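import Mathlib
import Pool.Agent.R282.OA

/-!
# The join of orthogonally additive operators without the pointwise supremum formula

We give Riesz spaces `E`, `F`, orthogonally additive `S, T : E → F` whose join `S ∨ T` exists in
`O(E,F)`, and `x` such that `{S(u) + T(v) : x = u ⊔ v}` has no supremum in `F`.
-/

namespace Pool.Agent.Results.MP_f32e1d_an.NoPointwiseSup

open Pool.Agent.R282.OA

/-- the element of `F` given by the measures of a set -/
noncomputable def tm (a : Set ℕ) : FF := TT (ind a)

lemma fn_tm (a : Set ℕ) (s : Tree) : (tm a).fn s = mu s a := by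
  unfold tm; rw [fn_TT, one_ind]

lemma mu_empty (s : Tree) : mu s ∅ = 0 := by
  have := mu_union s (Set.disjoint_empty (∅ : Set ℕ))
  rw [Set.union_empty] at this
  linarith

lemma split_eq (x : ℕ → ℝ) : splitSet SS TT x = {w | ∃ a ⊆ one x, w = tm a} := by
  ext w
  constructor
  · rintro ⟨u, v, huv, rfl, rfl⟩
    refine ⟨one v, ?_, ?_⟩
    · rw [(one_add huv).1]; exact Set.subset_union_right
    · refine FF.ext fun s => ?_
      rw [fn_add, fn_tm, fn_TT]
      have : (SS u).fn s = 0 := rfl
      rw [this, zero_add]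
  · rintro ⟨a, ha, rfl⟩
    refine ⟨x - ind a, ind a, ?_, by abel, ?_⟩
    · rw [disj_iff]
      intro i
      by_cases h : i ∈ a
      · left
        have h1 : x i = 1 := ha h
        simp only [Pi.sub_apply, ind, Set.indicator_of_mem h, Pi.one_apply, h1]
        norm_num
      · right
        exact Set.indicator_of_notMem h _
    · refine FF.ext fun s => ?_
      rw [fn_add, fn_tm, fn_TT, one_ind]
      have : (SS (x - ind a)).fn s = 0 := rfl
      rw [this, zero_add]

/-- **Main result** (Q1 of MP_f32e1d_an has a negative answer). -/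
theorem result : ∃ (E F : Type) (_ : AddCommGroup E) (_ : Lattice E) (_ : Module ℝ E)
    (_ : IsOrderedAddMonoid E) (_ : PosSMulMono ℝ E) (_ : AddCommGroup F) (_ : Lattice F)
    (_ : Module ℝ F) (_ : IsOrderedAddMonoid F) (_ : PosSMulMono ℝ F),
    ArchRiesz F ∧ ∃ (S T : E → F), OrthAdd S ∧ OrthAdd T ∧ (∃ W : E → F, IsJoin S T W) ∧
      ∃ x : E, ¬ ∃ g : F, IsLUB (splitSet S T x) g := by
  refine ⟨ℕ → ℝ, FF, inferInstance, inferInstance, inferInstance, inferInstance, inferInstance,
    inferInstance, inferInstance, inferInstance, inferInstance, inferInstance,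
    arch_FF, SS, TT, orth_SS, orth_TT, ⟨WW, isJoin⟩, ?_⟩
  by_contra hcon
  push Not at hcon
  choose P hP using hcon
  simp only [split_eq] at hP
  have hup : ∀ x a, a ⊆ one x → tm a ≤ P x := fun x a ha => (hP x).1 ⟨a, ha, rfl⟩
  have hlow : ∀ x (b : FF), (∀ a, a ⊆ one x → tm a ≤ b) → P x ≤ b := by
    intro x b h
    refine (hP x).2 ?_
    rintro _ ⟨a, ha, rfl⟩
    exact h a ha
  have hPorth : OrthAdd P := by
    intro x y hxy
    obtain ⟨h1, h2⟩ := one_add hxy
    refine le_antisymm (hlow _ _ fun a ha => ?_) ?_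
    · rw [h1] at ha
      have h3 : tm a = tm (a ∩ one x) + tm (a ∩ one y) := by
        refine FF.ext fun s => ?_
        rw [fn_add, fn_tm, fn_tm, fn_tm, ← mu_union]
        · congr 1
          rw [← Set.inter_union_distrib_left]
          exact (Set.inter_eq_left.mpr ha).symm
        · exact h2.mono Set.inter_subset_right Set.inter_subset_right
      rw [h3]
      exact add_le_add (hup x _ Set.inter_subset_right) (hup y _ Set.inter_subset_right)
    · have h3 : ∀ a ⊆ one x, ∀ a' ⊆ one y, tm a + tm a' ≤ P (x + y) := by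
        intro a ha a' ha'
        have h4 : tm a + tm a' = tm (a ∪ a') := by
          refine FF.ext fun s => ?_
          rw [fn_add, fn_tm, fn_tm, fn_tm, mu_union s (h2.mono ha ha')]
        rw [h4]
        refine hup _ _ ?_
        rw [h1]
        exact Set.union_subset_union ha ha'
      have h5 : ∀ a' ⊆ one y, P x ≤ P (x + y) - tm a' := fun a' ha' =>
        hlow _ _ fun a ha => le_sub_iff_add_le.mpr (h3 a ha a' ha')
      have h6 : P y ≤ P (x + y) - P x := by
        refine hlow _ _ fun a' ha' => ?_
        have := h5 a' ha'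
        rw [le_sub_iff_add_le] at this ⊢
        rwa [add_comm]
      rw [le_sub_iff_add_le] at h6
      rwa [add_comm]
  have h0 : ∀ x, SS x ≤ P x := by
    intro x
    have h1 := hup x ∅ (Set.empty_subset _)
    have h2 : tm ∅ = 0 := FF.ext fun s => by rw [fn_tm, mu_empty]; rfl
    rw [h2] at h1
    exact h1
  have hT : ∀ x, TT x ≤ P x := by
    intro x
    have h1 := hup x (one x) (le_refl _)
    have h2 : tm (one x) = TT x := FF.ext fun s => by rw [fn_tm, fn_TT]
    rwa [h2] at h1
  have h1 := isJoin.2.2.2 P hPorth h0 hT (ind Set.univ)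
  have h2 : P (ind Set.univ) ≤ cst (1 / 2) := by
    refine hlow _ _ fun a _ s => ?_
    rw [fn_tm, fn_cst]
    exact mu_le_half s a
  have h3 := (h1.trans h2) []
  rw [fn_cst, fn_WW, one_ind, m_univ] at h3
  norm_num at h3

end Pool.Agent.Results.MP_f32e1d_an.NoPointwiseSup
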